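import Pool.Agent.TH827.CO.FinalO
import Pool.Agent.TH827.CO.Dual

/-!
# Distribution of p-parts of class groups of imaginary quadratic fields (MP_0f260b_nt)

A lower bound for the moments of the cyclic groups `ℤ/g`, `g` odd and not a prime (for instance
`g = p ^ k`, `p` an odd prime, `k ≥ 2`).
-/

namespace Pool.Agent.Results.MP_0f260b_nt.CyclicMoments

open NumberField

/-- Let `g > 1` be odd and not a prime and let `F d` be the number of surjective homomorphisms from
the class group of the imaginary quadratic field `ℚ(√(-d))` onto `ℤ/g`, for every squarefree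
`d > 0`. Then the sum of `F d` over the squarefree `d ≤ X` is at least
`X ^ (1/2 + 2/g) / (log X)^5` for all large `X`. -/
theorem result (g : ℕ) (hg1 : 1 < g) (hodd : Odd g) (hg : ¬ g.Prime) (F : ℕ → ℕ)
    (hF : ∀ d : ℕ, 0 < d → Squarefree d → ∀ (K : Type) [Field K] [NumberField K],
      Module.finrank ℚ K = 2 → (∃ x : K, x ^ 2 = -(d : K)) →
        F d = Nat.card {f : ClassGroup (𝓞 K) →* Multiplicative (ZMod g) //
          Function.Surjective f}) :
    ∃ X₀ : ℕ, ∀ X : ℕ, X₀ ≤ X →
      (X : ℝ) ^ (1 / 2 + 2 / (g : ℝ)) / (Real.log X) ^ 5 ≤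
        ∑ d ∈ (Finset.Icc 1 X).filter Squarefree, (F d : ℝ) := by
  have hg9 : 9 ≤ g := by
    by_contra hlt
    push Not at hlt
    obtain ⟨k, hk⟩ := hodd
    have hk3 : k ≤ 3 := by omega
    have hk1 : 1 ≤ k := by omega
    interval_cases k <;> subst hk <;> exact hg (by norm_num)
  have hF' : TH827.CG.IsOrd g F := by
    intro d hd hsf K _ _ hfr hx
    rw [hF d hd hsf K hfr hx]
    exact TH827.CG.card_sur (by omega)
  obtain ⟨X₀, h⟩ := TH827.CG.all_large_o (by omega) hodd hF'
  refine ⟨X₀, fun X hX => ?_⟩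
  have h1 := h X hX
  have h9 : (9 : ℝ) ≤ g := by exact_mod_cast hg9
  have hmin : min (1 / 2 + 2 / (g : ℝ)) (3 / 4) = 1 / 2 + 2 / (g : ℝ) := by
    apply min_eq_left
    have : 2 / (g : ℝ) ≤ 2 / 9 := div_le_div_of_nonneg_left (by norm_num) (by norm_num) h9
    linarith
  rw [hmin] at h1
  exact h1

end Pool.Agent.Results.MP_0f260b_nt.CyclicMoments
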