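import Mathlib
import Pool.Agent.TH861.CG.Main
import Pool.Agent.TH861.CG.Ord

set_option autoImplicit false

/-!
# Imaginary quadratic class groups with an element of order `g`, in every short interval

For every `ε > 0` there are `δ > 0` and `X₀` such that for all `X ≥ X₀`, all `H` with
`X ^ (5/6 + ε) ≤ H ≤ X`, and all `g` with `3 ≤ g ≤ δ log X`, at least
`H X ^ (1/g - 1/2 - ε)` squarefree `D` in `[X, X + H]` are such that the class group of
`ℚ(√(-D))` has an element of order exactly `g`.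
-/

namespace Pool.Agent.Results.MP_0f260b_nt.CyclicPartsEveryInterval

open NumberField Pool.Agent.TH861.CG

theorem result (ε : ℝ) (hε : 0 < ε) : ∃ δ X₀ : ℝ, 0 < δ ∧
    ∀ X H : ℝ, X₀ ≤ X → X ^ (5 / 6 + ε) ≤ H → H ≤ X →
      ∀ g : ℕ, 3 ≤ g → (g : ℝ) ≤ δ * Real.log X →
        ∃ S : Finset ℕ, H * X ^ (1 / (g : ℝ) - 1 / 2 - ε) ≤ (S.card : ℝ) ∧
          ∀ D ∈ S, Squarefree D ∧ X ≤ (D : ℝ) ∧ (D : ℝ) ≤ X + H ∧
            ∀ (K : Type) [Field K] [NumberField K], Module.finrank ℚ K = 2 →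
              (∃ r : K, r ^ 2 = -(D : K)) → ∃ c : ClassGroup (𝓞 K), orderOf c = g := by
  obtain ⟨δ, X₀, hδ, h⟩ := main ε hε
  refine ⟨δ, X₀, hδ, fun X H hX hH1 hH2 g hg3 hg => ?_⟩
  obtain ⟨S, hS, hS'⟩ := h X H hX hH1 hH2 g hg3 hg
  refine ⟨S, hS, fun D hD => ?_⟩
  obtain ⟨h1, h2, h3, m, n, hm, hm2, h4, h5⟩ := hS' D hD
  refine ⟨h1, h2, h3, ?_⟩
  intro K _ _ hK hr
  obtain ⟨r, hr⟩ := hr
  exact exists_order h1 hm hm2 (by omega) h4 h5 hK r hr

end Pool.Agent.Results.MP_0f260b_nt.CyclicPartsEveryInterval
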