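import Pool.Agent.TH664.CG.Cls
import Pool.Agent.TH664.CG.Fin

/-! Imaginary quadratic fields whose class group contains an element of prescribed order, with
radicand in a short interval and in a prescribed residue class to a large modulus. -/

set_option autoImplicit false

open NumberField Module

namespace Pool.Agent.Results.MP_0f260b_nt.OrderInShortIntervals

/-- For every `n ≥ 1` there is `C > 0` such that for every modulus `M ≥ 1`, every `a` for which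
`g = gcd(a, M)` is squarefree and every real `X ≥ 1` there is a squarefree `d ≡ a (mod M)` with
`X ≤ d ≤ X + C M ^ 11 g ^ 4 X ^ (3 / 4)` such that the class group of the imaginary quadratic field
`ℚ(√(-d))` contains an element of order `2 n`. -/
theorem result (n : ℕ) (hn : 1 ≤ n) :
    ∃ C : ℝ, 0 < C ∧ ∀ M a : ℕ, 1 ≤ M → Squarefree (Nat.gcd a M) → ∀ X : ℝ, 1 ≤ X →
      ∃ d : ℕ, Squarefree d ∧ d ≡ a [MOD M] ∧ X ≤ (d : ℝ) ∧
        (d : ℝ) ≤ X + C * (M : ℝ) ^ 11 * (Nat.gcd a M : ℝ) ^ 4 * X ^ (3 / 4 : ℝ) ∧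
        ∀ (K : Type) [Field K] [NumberField K], finrank ℚ K = 2 → (∃ s : K, s ^ 2 = -(d : K)) →
          ∃ c : ClassGroup (𝓞 K), orderOf c = 2 * n := by
  obtain ⟨C1, hC1, hsm⟩ := TH664.CG.small_prime (2 * n + 4) (by omega)
  have hC1R : (1 : ℝ) ≤ (C1 : ℝ) := by exact_mod_cast hC1
  refine ⟨6 * 2 ^ 15 * 36 ^ 7 * (6 * C1), by positivity, ?_⟩
  intro M a hM hg X hX
  obtain ⟨g, hgdef⟩ : ∃ g : ℕ, g = Nat.gcd a M := ⟨_, rfl⟩
  rw [← hgdef] at hg ⊢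
  have hgM : g ∣ M := hgdef ▸ Nat.gcd_dvd_right a M
  have hga : g ∣ a := hgdef ▸ Nat.gcd_dvd_left a M
  have hg0 : 0 < g := Nat.pos_of_dvd_of_pos hgM hM
  obtain ⟨l, hl, hl6, hlC⟩ := hsm (6 * M) (by omega)
  have hcop : Nat.Coprime (a / g) (M / g) := by
    rw [hgdef]
    exact Nat.coprime_div_gcd_div_gcd (hgdef ▸ hg0)
  obtain ⟨t, ht⟩ := TH664.CG.exists_lift hcop (m := 6 * M) (by omega)
  -- the fourth root
  obtain ⟨w, hw⟩ : ∃ w : ℝ, w = X ^ (1 / 4 : ℝ) := ⟨_, rfl⟩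
  have hX0 : 0 ≤ X := by linarith
  have hw1 : 1 ≤ w := by
    rw [hw]
    exact Real.one_le_rpow hX (by norm_num)
  have hw4 : w ^ 4 = X := by
    rw [hw, ← Real.rpow_natCast, ← Real.rpow_mul hX0]
    norm_num
  have hw3 : w ^ 3 = X ^ (3 / 4 : ℝ) := by
    rw [hw, ← Real.rpow_natCast, ← Real.rpow_mul hX0]
    norm_num
  obtain ⟨d, z, x, y, hsq, hcl, hlo, hhi, hz, he, hc, hsmall⟩ :=
    TH664.CG.exists_window hn hM hg hgM ht hl hl6 hw1
  refine ⟨d, hsq, ?_, ?_, ?_, ?_⟩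
  · have h1 : M ∣ 36 * M * g := ⟨36 * g, by ring⟩
    have h2 := hcl.of_dvd h1
    refine h2.trans ?_
    have h3 : g * (a / g + M / g * t) = a + M * t := by
      rw [Nat.mul_add, Nat.mul_div_cancel' hga, ← mul_assoc, Nat.mul_div_cancel' hgM]
    rw [h3]
    unfold Nat.ModEq
    rw [Nat.add_mul_mod_self_left]
  · rw [← hw4]
    exact hlo
  · rw [← hw3, ← hw4]
    refine hhi.trans ?_
    have hlR : (l : ℝ) ^ (2 * n + 4) ≤ C1 * (6 * M) := by exact_mod_cast hlC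
    have h1 : (M : ℝ) ^ 10 * (g : ℝ) ^ 4 * (l : ℝ) ^ (2 * n + 4) ≤
        (M : ℝ) ^ 10 * (g : ℝ) ^ 4 * (C1 * (6 * M)) :=
      mul_le_mul_of_nonneg_left hlR (by positivity)
    have h2 : 6 * 2 ^ 15 * 36 ^ 7 * ((M : ℝ) ^ 10 * (g : ℝ) ^ 4 * (l : ℝ) ^ (2 * n + 4)) * w ^ 3 ≤
        6 * 2 ^ 15 * 36 ^ 7 * ((M : ℝ) ^ 10 * (g : ℝ) ^ 4 * (C1 * (6 * M))) * w ^ 3 := by
      apply mul_le_mul_of_nonneg_right _ (by positivity)
      exact mul_le_mul_of_nonneg_left h1 (by positivity)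
    have h3 : 6 * 2 ^ 15 * 36 ^ 7 * ((M : ℝ) ^ 10 * (g : ℝ) ^ 4 * (C1 * (6 * M))) * w ^ 3 =
        6 * 2 ^ 15 * 36 ^ 7 * (6 * C1) * (M : ℝ) ^ 11 * (g : ℝ) ^ 4 * w ^ 3 := by ring
    rw [h3] at h2
    linarith
  · intro K _ _ hK ⟨s, hs⟩
    refine TH664.CG.exists_order hsq hs hK (x := x) (y := y) (z := z) (k := 2 * n) hz (by omega)
      he hc ?_
    have : 2 * n / 2 = n := by omega
    rw [this]
    exact hsmall

end Pool.Agent.Results.MP_0f260b_nt.OrderInShortIntervals
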